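import Pool.Agent.H44.DC2

open Pool.Agent.H44.DC

namespace Pool.Agent.Results.MP_f93cde_pr.Q1False

theorem result : ∃ E : (N : ℕ) → Finset (Finset (Fin N)), (∀ N, ∀ e ∈ E N, e.card = 3) ∧
    (∀ N r i, (ball (E N) r i).ncard ≤ 4) ∧ ∀ β t : ℝ, 0 < β →
      (∃ c > 0, ∀ N, 4 ≤ N → c ≤ chaosC (E N) id β t) ∧
      ∃ c > 0, ∀ N, 4 ≤ N → c ≤ chaosD (E N) id β t :=
  ⟨EE, fun _ _ => card_EE, fun _ => ball_card, fun _ _ h => ⟨mainC h, mainD h⟩⟩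

end Pool.Agent.Results.MP_f93cde_pr.Q1False
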